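import Pool.Agent.Helper99.BK.Stmts

namespace Pool.Helper72.BK

open NumberField Polynomial Pool.Helper99.BK

/-- All conjugates of integers of cubic fields of size at most `B` lie in one finite set. -/
theorem finite_conj (B : ℝ) : ∃ Z : Set ℂ, Z.Finite ∧ ∀ (K : Type) [Field K] [NumberField K],
    Module.finrank ℚ K = 3 → ∀ x : K, IsIntegral ℤ x → (∀ σ : K →+* ℂ, ‖σ x‖ ≤ B) →
    ∀ σ : K →+* ℂ, σ x ∈ Z := by
  classical
  let C := Nat.ceil (max B 1 ^ 3 * ((Nat.choose 3 (3 / 2) : ℕ) : ℝ))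
  refine ⟨_, bUnion_roots_finite (algebraMap ℤ ℂ) 3 (Set.finite_Icc (-C : ℤ) C), ?_⟩
  intro K _ _ hK x hx hB σ
  simp_rw [Set.mem_iUnion]
  have h1 := minpoly.isIntegrallyClosed_eq_field_fractions' ℚ hx
  refine ⟨minpoly ℤ x, ⟨?_, fun i => ?_⟩, ?_⟩
  · rw [← (minpoly.monic hx).natDegree_map (algebraMap ℤ ℚ), ← h1, ← hK]
    exact minpoly.natDegree_le x
  · rw [Set.mem_Icc, ← abs_le, ← @Int.cast_le ℝ]
    have h2 := NumberField.Embeddings.coeff_bdd_of_norm_le (A := ℂ) hB i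
    rw [hK] at h2
    refine (Eq.trans_le ?_ h2).trans (Nat.le_ceil _)
    rw [h1, coeff_map, eq_intCast, Int.norm_cast_rat, Int.norm_eq_abs, Int.cast_abs]
  · rw [Finset.mem_coe, Multiset.mem_toFinset, mem_roots', IsRoot.def]
    refine ⟨((minpoly.monic hx).map _).ne_zero, ?_⟩
    rw [eval_map]
    have h3 : (algebraMap ℤ ℂ) = σ.comp (algebraMap ℤ K) := RingHom.ext_int _ _
    rw [h3, ← hom_eval₂]
    have h4 : eval₂ (algebraMap ℤ K) x (minpoly ℤ x) = 0 := minpoly.aeval ℤ x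
    rw [h4, map_zero]

/-- roots of unity in a cubic field. -/
theorem unit_pow_one {K : Type} [Field K] [NumberField K] (hK : Module.finrank ℚ K = 3)
    (u : (𝓞 K)ˣ) (n : ℕ) (hn : 0 < n) (h : u ^ n = 1) : u = 1 ∨ u = -1 := by
  have h1 : u ∈ NumberField.Units.torsion K :=
    (CommGroup.mem_torsion u).2 (isOfFinOrder_iff_pow_eq_one.2 ⟨n, hn, h⟩)
  exact NumberField.Units.torsion_eq_one_or_neg_one_of_odd_finrank (by rw [hK]; decide) ⟨u, h1⟩

theorem st_UB0 : ST_UB0 := by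
  classical
  obtain ⟨Z, hZ, hZ'⟩ := finite_conj (Real.exp 1)
  let N := hZ.toFinset.card
  refine ⟨1 / ((N : ℝ) + 1), by positivity, ?_⟩
  intro K _ _ hK u hu1 hu2
  by_contra hcon
  push Not at hcon
  obtain ⟨σ⟩ : Nonempty (K →+* ℂ) := inferInstance
  have hN : (0 : ℝ) < (N : ℝ) + 1 := by positivity
  have key : ∀ j ∈ Finset.range (N + 1), σ (((u ^ j : (𝓞 K)ˣ) : 𝓞 K) : K) ∈ hZ.toFinset := by
    intro j hj
    rw [Set.Finite.mem_toFinset]
    refine hZ' K hK _ (NumberField.RingOfIntegers.isIntegral_coe _) (fun τ => ?_) σ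
    have hne : τ ((u : 𝓞 K) : K) ≠ 0 := by
      rw [_root_.map_ne_zero]
      exact fun h => u.ne_zero (by exact_mod_cast h)
    have h1 : τ (((u ^ j : (𝓞 K)ˣ) : 𝓞 K) : K) = τ ((u : 𝓞 K) : K) ^ j := by
      push_cast
      rw [map_pow]
    have h2 := hcon τ
    have h3 : (j : ℝ) ≤ N := by
      have := Finset.mem_range.1 hj
      exact_mod_cast Nat.lt_succ_iff.1 this
    have hpos : 0 < ‖τ ((u : 𝓞 K) : K)‖ := norm_pos_iff.2 hne
    rw [h1, norm_pow, ← Real.exp_log (pow_pos hpos j), Real.exp_le_exp, Real.log_pow]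
    have h4 : Real.log ‖τ ((u : 𝓞 K) : K)‖ ≤ 1 / ((N : ℝ) + 1) :=
      (le_abs_self _).trans h2.le
    calc (j : ℝ) * Real.log ‖τ ((u : 𝓞 K) : K)‖ ≤ (j : ℝ) * (1 / ((N : ℝ) + 1)) := by gcongr
      _ ≤ ((N : ℝ) + 1) * (1 / ((N : ℝ) + 1)) := by gcongr; linarith
      _ = 1 := by field_simp
  have hcard : hZ.toFinset.card < (Finset.range (N + 1)).card := by
    rw [Finset.card_range]
    exact Nat.lt_succ_self _
  obtain ⟨i, hi, j, hj, hij, h⟩ := Finset.exists_ne_map_eq_of_card_lt_of_maps_to hcard key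
  have h5 : u ^ i = u ^ j := by
    have h6 := σ.injective h
    apply Units.ext
    exact_mod_cast h6
  wlog hlt : i < j
  · exact this Z hZ hZ' K hK u hu1 hu2 hcon σ hN key hcard j hj i hi hij.symm h.symm h5.symm
      (lt_of_le_of_ne (not_lt.1 hlt) hij.symm)
  have h6 : u ^ (j - i) = 1 := by
    have h7 : u ^ j = u ^ (j - i) * u ^ i := by rw [← pow_add, Nat.sub_add_cancel hlt.le]
    rw [h7] at h5
    exact (right_eq_mul.1 h5)
  rcases unit_pow_one hK u (j - i) (Nat.sub_pos_of_lt hlt) h6 with h | h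
  · exact hu1 h
  · exact hu2 h

end Pool.Helper72.BK
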